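import Pool.Agent.helper63.Dg4.Spec
import Pool.Agent.helper63.Diag.Upper

/-!
# Row PI4: the class `Diag` is a (boldface) `Π⁰₄` set
-/

namespace Pool.Agent.helper63.Dg4

open Encodable Pool.Agent.helper63.Diag

/-- the open sets used for `PI4` -/
def PI4_O (C : Cr) (D : List ℕ → ℕ × ℕ → Prop) (i : ℕ) : Set (ℕ → ℕ) :=
  {X | ∃ z k, D (res X k) (i.unpair.1, z)} ∩
    {X | D (res X i.unpair.2.unpair.2.unpair.2)
        (i.unpair.2.unpair.1, i.unpair.2.unpair.2.unpair.1) →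
      ¬ C.E i.unpair.2.unpair.2.unpair.1 i.unpair.2.unpair.1}

theorem PI4_open (C : Cr) (D : List ℕ → ℕ × ℕ → Prop) (i : ℕ) : IsOpen (PI4_O C D i) := by
  refine IsOpen.inter ?_ ?_
  · have h : {X : ℕ → ℕ | ∃ z k, D (res X k) (i.unpair.1, z)} =
        ⋃ z, ⋃ k, {X : ℕ → ℕ | D (res X k) (i.unpair.1, z)} := by
      ext X
      simp only [Set.mem_ofPred_eq, Set.mem_iUnion]
    rw [h]
    exact isOpen_iUnion fun z => isOpen_iUnion fun k =>
      (isClopen_dep k (fun l => D l (i.unpair.1, z))).isOpen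
  · exact (isClopen_dep i.unpair.2.unpair.2.unpair.2
      (fun l => D l (i.unpair.2.unpair.1, i.unpair.2.unpair.2.unpair.1) →
        ¬ C.E i.unpair.2.unpair.2.unpair.1 i.unpair.2.unpair.1)).isOpen

theorem PI4_iff (C : Cr) (D : List ℕ → ℕ × ℕ → Prop) (X : ℕ → ℕ) :
    (∀ i, X ∈ PI4_O C D i) ↔
      (∀ x, ∃ z k, D (res X k) (x, z)) ∧ ∀ x z k, D (res X k) (x, z) → ¬ C.E z x := by
  constructor
  · intro h
    refine ⟨fun x => ?_, fun x z k hD => ?_⟩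
    · have h1 := (h (Nat.pair x 0)).1
      simpa only [Set.mem_ofPred_eq, Nat.unpair_pair] using h1
    · have h2 := (h (Nat.pair 0 (Nat.pair x (Nat.pair z k)))).2
      simp only [Set.mem_ofPred_eq, Nat.unpair_pair] at h2
      exact h2 hD
  · rintro ⟨h1, h2⟩ i
    exact ⟨h1 _, fun h => h2 _ _ _ h⟩

/-- **PI4** -/
theorem PI4 : PI4_stmt := by
  have hcr := countable_cr
  obtain ⟨ec, hec⟩ := exists_surjective_nat Cr
  have hct : Countable {D : List ℕ → ℕ × ℕ → Prop | PrimrecRel D} :=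
    countable_primrecRel.to_subtype
  have hne : Nonempty {D : List ℕ → ℕ × ℕ → Prop | PrimrecRel D} := by
    refine ⟨⟨fun _ _ => False, ?_⟩⟩
    have : PrimrecPred (fun _ : List ℕ × (ℕ × ℕ) => (0 : ℕ) = 1) :=
      Primrec.eq.comp (Primrec.const 0) (Primrec.const 1)
    exact this.of_eq (fun a => by simp)
  obtain ⟨ed, hed⟩ := exists_surjective_nat {D : List ℕ → ℕ × ℕ → Prop | PrimrecRel D}
  refine ⟨fun n m i => PI4_O (ec n) (ed m).1 i, fun n m i => PI4_open _ _ _, fun X => ?_⟩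
  constructor
  · intro hX n
    obtain ⟨g, hg, hd⟩ := hX (ec n).E ⟨(ec n).eqv, (ec n).ce⟩ (ec n).ne
    obtain ⟨D, hD, hA⟩ := s1_graph hg
    obtain ⟨m, hm⟩ := hed ⟨D, hD⟩
    refine ⟨m, (PI4_iff _ _ _).2 ⟨fun x => ?_, fun x z k h => ?_⟩⟩
    · obtain ⟨k, hk⟩ := (hA (x, g x)).1 rfl
      refine ⟨g x, k, ?_⟩
      rw [hm]
      exact hk
    · rw [hm] at h
      have h1 : g x = z := (hA (x, z)).2 ⟨k, h⟩
      rw [← h1]
      exact hd x
  · intro h E hE hE1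
    obtain ⟨n, hn⟩ := hec ⟨E, hE.1, hE.2, hE1⟩
    obtain ⟨m, hm⟩ := h n
    obtain ⟨h1, h2⟩ := (PI4_iff _ _ _).1 hm
    have hs : S1 X (fun p : ℕ × ℕ => ∃ k, (ed m).1 (res X k) p) :=
      ⟨(ed m).1, (ed m).2, fun _ => Iff.rfl⟩
    obtain ⟨g, hg1, hg2⟩ := S1.unif hs h1
    refine ⟨g, RecursiveIn.iff_nat.2 (RI.of_s1 hg2), fun x hx => ?_⟩
    obtain ⟨k, hk⟩ := hg1 x
    have h3 := h2 x (g x) k hk
    rw [hn] at h3
    exact h3 hx

end Pool.Agent.helper63.Dg4
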